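import Pool.Agent.Helper38_Strip.Statements

/-!
# Module BADP for MP_cd3e9c_pr: the bad events have small probability
-/

namespace Pool.Agent.Helper38_Strip.H44

open Finset MeasureTheory Filter Topology ProbabilityTheory

universe u

/-- one region: empty with probability `exp (- volume)` -/
theorem prob_nonempty {Ω : Type u} [MeasurableSpace Ω] (P : Measure Ω) [IsProbabilityMeasure P]
    (S : Ω → Set (ℝ × ℝ)) (hS : IsPoissonProcess P S) (R : Set (ℝ × ℝ)) (hR : MeasurableSet R)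
    (hv : volume R < ⊤) :
    P ({ω | (S ω ∩ R).encard = 0}ᶜ) = ENNReal.ofReal (1 - Real.exp (-(volume R).toReal)) := by
  have h := hS.law 1 (fun _ => R) (fun _ => hR) (fun _ => hv)
    (fun i j hij => absurd (Subsingleton.elim i j) hij) (fun _ => 0)
  have hm := hS.meas R hR 0
  simp only [Nat.cast_zero, pow_zero, mul_one, Nat.factorial_zero, Nat.cast_one, div_one,
    Finset.univ_unique, Finset.prod_singleton, Set.iInter_const] at h
  simp only [Nat.cast_zero] at hm
  rw [prob_compl_eq_one_sub hm, h, show (1 : ENNReal) = ENNReal.ofReal 1 by simp,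
    ← ENNReal.ofReal_sub _ (Real.exp_pos _).le]

/-- one region: more than one point with probability at most `volume ^ 2` -/
theorem prob_two {Ω : Type u} [MeasurableSpace Ω] (P : Measure Ω) [IsProbabilityMeasure P]
    (S : Ω → Set (ℝ × ℝ)) (hS : IsPoissonProcess P S) (R : Set (ℝ × ℝ)) (hR : MeasurableSet R)
    (a : ℝ) (hv : volume R ≤ ENNReal.ofReal a) :
    P (({ω | (S ω ∩ R).encard = 0} ∪ {ω | (S ω ∩ R).encard = 1})ᶜ) ≤ ENNReal.ofReal (a ^ 2) := by
  have hfin : volume R < ⊤ := lt_of_le_of_lt hv ENNReal.ofReal_lt_top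
  have h := fun k : ℕ => hS.law 1 (fun _ => R) (fun _ => hR) (fun _ => hfin)
    (fun i j hij => absurd (Subsingleton.elim i j) hij) (fun _ => k)
  have h0 := h 0
  have h1 := h 1
  have hm0 := hS.meas R hR 0
  have hm1 := hS.meas R hR 1
  simp only [Nat.cast_zero, pow_zero, mul_one, Nat.factorial_zero, Nat.cast_one, div_one,
    Finset.univ_unique, Finset.prod_singleton, Set.iInter_const] at h0
  simp only [Nat.cast_zero] at hm0
  simp only [Nat.cast_one, pow_one, Nat.factorial_one, div_one,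
    Finset.univ_unique, Finset.prod_singleton, Set.iInter_const] at h1
  simp only [Nat.cast_one] at hm1
  have hd : Disjoint {ω | (S ω ∩ R).encard = 0} {ω | (S ω ∩ R).encard = 1} := by
    rw [Set.disjoint_left]
    intro ω h1 h2
    have h1' : (S ω ∩ R).encard = 0 := h1
    have h2' : (S ω ∩ R).encard = 1 := h2
    rw [h1'] at h2'
    exact zero_ne_one h2'
  set v := (volume R).toReal with hvdef
  have hv0 : 0 ≤ v := ENNReal.toReal_nonneg
  have hva : v ≤ max a 0 := by
    rw [hvdef, ← ENNReal.toReal_ofReal_eq_iff.2 (le_max_right a 0)]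
    apply ENNReal.toReal_mono ENNReal.ofReal_ne_top
    exact hv.trans (ENNReal.ofReal_le_ofReal (le_max_left _ _))
  have hv2 : v ^ 2 ≤ a ^ 2 := by
    rcases le_total a 0 with h | h
    · rw [max_eq_right h] at hva
      have : v = 0 := le_antisymm hva hv0
      rw [this]
      nlinarith [sq_nonneg a]
    · rw [max_eq_left h] at hva
      exact pow_le_pow_left₀ hv0 hva 2
  rw [prob_compl_eq_one_sub (hm0.union hm1), measure_union hd hm1, h0, h1,
    ← ENNReal.ofReal_add (Real.exp_pos _).le (mul_nonneg (Real.exp_pos _).le hv0),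
    show (1 : ENNReal) = ENNReal.ofReal 1 by simp,
    ← ENNReal.ofReal_sub _ (add_nonneg (Real.exp_pos _).le (mul_nonneg (Real.exp_pos _).le hv0))]
  apply ENNReal.ofReal_le_ofReal
  have h3 := Real.add_one_le_exp (-v)
  have h4 : (1 - v) * (1 + v) ≤ Real.exp (-v) * (1 + v) :=
    mul_le_mul_of_nonneg_right (by linarith) (by linarith)
  nlinarith

/-- BADP -/
theorem badP (hArea : AreaStatement) : BadPStatement.{u} := by
  classical
  intro Ω mΩ P hP S hS l w hl hw
  obtain ⟨hmR, hmU, hlim⟩ := hArea l w hl hw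
  let δ : ℕ → ℝ := fun N => del w N
  let T : ℕ → ℕ := fun N => TN l w N
  let U : ℕ → Set (ℝ × ℝ) := fun N => UN (δ N) (T N) N
  let D : ℕ → Set (ℝ × ℝ) := fun N => (rect l w \ U N) ∪ (U N \ rect l w)
  let C : ℕ → ℤ → Set (ℝ × ℝ) := fun N i => U N ∩ {z | ⌊z.1 / δ N⌋ = i}
  let R : ℕ → ℤ → Set (ℝ × ℝ) := fun N i => U N ∩ {z | ⌊z.2 / δ N⌋ = i}
  have hδ : ∀ N, 1 ≤ N → 0 < δ N := by
    intro N hN
    have : (0 : ℝ) < N := by exact_mod_cast hN
    show 0 < √2 * w / N
    positivity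
  have hmD : ∀ N, MeasurableSet (D N) := fun N =>
    (hmR.diff (hmU N)).union ((hmU N).diff hmR)
  have hmC : ∀ N i, MeasurableSet (C N i) := fun N i =>
    (hmU N).inter ((Int.measurable_floor.comp (measurable_fst.div_const _))
      (measurableSet_singleton i))
  have hmRw : ∀ N i, MeasurableSet (R N i) := fun N i =>
    (hmU N).inter ((Int.measurable_floor.comp (measurable_snd.div_const _))
      (measurableSet_singleton i))
  have hU : ∀ N, 1 ≤ N → ∀ z ∈ U N, 0 ≤ ⌊z.2 / δ N⌋ - ⌊z.1 / δ N⌋ ∧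
      ⌊z.2 / δ N⌋ - ⌊z.1 / δ N⌋ ≤ N ∧ -(N : ℤ) ≤ ⌊z.1 / δ N⌋ ∧ ⌊z.1 / δ N⌋ ≤ T N ∧
      0 ≤ ⌊z.2 / δ N⌋ ∧ ⌊z.2 / δ N⌋ ≤ T N + N := by
    intro N hN z hz
    obtain ⟨t, ht, m, hm, hp, h1, h2, h3, h4⟩ := hz
    have hδN := hδ N hN
    have e1 : ⌊z.1 / δ N⌋ = ix (T N) N t m := by
      rw [Int.floor_eq_iff, le_div_iff₀ hδN, div_lt_iff₀ hδN]
      exact ⟨h1, h2⟩
    have e2 : ⌊z.2 / δ N⌋ = iy t m := by
      rw [Int.floor_eq_iff, le_div_iff₀ hδN, div_lt_iff₀ hδN]
      exact ⟨h3, h4⟩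
    rw [e1, e2]
    unfold ix iy
    rw [if_pos hp]
    refine ⟨?_, ?_, ?_, ?_, ?_, ?_⟩ <;> omega
  have hfl1 : ∀ N, 1 ≤ N → ∀ z : ℝ × ℝ, (⌊z.1 / δ N⌋ : ℝ) * δ N ≤ z.1 ∧
      z.1 < (⌊z.1 / δ N⌋ + 1) * δ N := by
    intro N hN z
    have hδN := hδ N hN
    constructor
    · rw [← le_div_iff₀ hδN]; exact Int.floor_le _
    · rw [← div_lt_iff₀ hδN]; exact Int.lt_floor_add_one _
  have hfl2 : ∀ N, 1 ≤ N → ∀ z : ℝ × ℝ, (⌊z.2 / δ N⌋ : ℝ) * δ N ≤ z.2 ∧
      z.2 < (⌊z.2 / δ N⌋ + 1) * δ N := by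
    intro N hN z
    have hδN := hδ N hN
    constructor
    · rw [← le_div_iff₀ hδN]; exact Int.floor_le _
    · rw [← div_lt_iff₀ hδN]; exact Int.lt_floor_add_one _
  have hvC : ∀ N, 1 ≤ N → ∀ i, volume (C N i) ≤ ENNReal.ofReal ((N + 1) * δ N ^ 2) := by
    intro N hN i
    have hδN := hδ N hN
    have hsub : C N i ⊆ Set.Ico (i * δ N) ((i + 1) * δ N) ×ˢ
        Set.Ico (i * δ N) ((i + N + 1) * δ N) := by
      rintro z ⟨hz, hi⟩
      have hi' : ⌊z.1 / δ N⌋ = i := hi
      obtain ⟨a1, a2, -⟩ := hU N hN z hz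
      have b1 := hfl1 N hN z
      have b2 := hfl2 N hN z
      rw [hi'] at b1 a1 a2
      refine ⟨b1, ?_, ?_⟩
      · refine le_trans (mul_le_mul_of_nonneg_right ?_ hδN.le) b2.1
        have : i ≤ ⌊z.2 / δ N⌋ := by omega
        exact_mod_cast this
      · refine lt_of_lt_of_le b2.2 (mul_le_mul_of_nonneg_right ?_ hδN.le)
        have : ⌊z.2 / δ N⌋ ≤ i + N := by omega
        have : (⌊z.2 / δ N⌋ : ℝ) ≤ i + N := by exact_mod_cast this
        linarith
    refine (measure_mono hsub).trans ?_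
    rw [Measure.volume_eq_prod, Measure.prod_prod, Real.volume_Ico, Real.volume_Ico,
      ← ENNReal.ofReal_mul (by nlinarith)]
    apply ENNReal.ofReal_le_ofReal
    apply le_of_eq
    ring
  have hvR : ∀ N, 1 ≤ N → ∀ i, volume (R N i) ≤ ENNReal.ofReal ((N + 1) * δ N ^ 2) := by
    intro N hN i
    have hδN := hδ N hN
    have hsub : R N i ⊆ Set.Ico ((i - N) * δ N) ((i + 1) * δ N) ×ˢ
        Set.Ico (i * δ N) ((i + 1) * δ N) := by
      rintro z ⟨hz, hi⟩
      have hi' : ⌊z.2 / δ N⌋ = i := hi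
      obtain ⟨a1, a2, -⟩ := hU N hN z hz
      have b1 := hfl1 N hN z
      have b2 := hfl2 N hN z
      rw [hi'] at b2 a1 a2
      refine ⟨⟨?_, ?_⟩, b2⟩
      · refine le_trans (mul_le_mul_of_nonneg_right ?_ hδN.le) b1.1
        have : i - N ≤ ⌊z.1 / δ N⌋ := by omega
        exact_mod_cast this
      · refine lt_of_lt_of_le b1.2 (mul_le_mul_of_nonneg_right ?_ hδN.le)
        have : ⌊z.1 / δ N⌋ ≤ i := by omega
        have : (⌊z.1 / δ N⌋ : ℝ) ≤ i := by exact_mod_cast this
        linarith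
    refine (measure_mono hsub).trans ?_
    rw [Measure.volume_eq_prod, Measure.prod_prod, Real.volume_Ico, Real.volume_Ico,
      ← ENNReal.ofReal_mul (by nlinarith)]
    apply ENNReal.ofReal_le_ofReal
    apply le_of_eq
    ring
  let E : Set (ℝ × ℝ) → Set Ω := fun Q =>
    ({ω | (S ω ∩ Q).encard = 0} ∪ {ω | (S ω ∩ Q).encard = 1})ᶜ
  have hmE : ∀ Q, MeasurableSet Q → MeasurableSet (E Q) := by
    intro Q hQ
    have h0 := hS.meas Q hQ 0
    have h1 := hS.meas Q hQ 1
    simp only [Nat.cast_zero] at h0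
    simp only [Nat.cast_one] at h1
    exact (h0.union h1).compl
  have hE2 : ∀ Q ω, ω ∉ E Q → ∀ z ∈ S ω ∩ Q, ∀ z' ∈ S ω ∩ Q, z = z' := by
    intro Q ω hω z hz z' hz'
    have h1 : (S ω ∩ Q).encard = 0 ∨ (S ω ∩ Q).encard = 1 := by
      by_contra hc
      apply hω
      intro h
      rcases h with h | h
      · exact hc (Or.inl h)
      · exact hc (Or.inr h)
    rcases h1 with h | h
    · rw [Set.encard_eq_zero] at h
      rw [h] at hz
      exact absurd hz (Set.notMem_empty _)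
    · rw [Set.encard_eq_one] at h
      obtain ⟨y, hy⟩ := h
      rw [hy] at hz hz'
      rw [Set.mem_singleton_iff] at hz hz'
      rw [hz, hz']
  let B : ℕ → Set Ω := fun N => ({ω | (S ω ∩ D N).encard = 0}ᶜ ∪
    ⋃ i ∈ Finset.Icc (-(N : ℤ)) (T N), E (C N i)) ∪
      ⋃ i ∈ Finset.Icc (0 : ℤ) (T N + N), E (R N i)
  refine ⟨B, ?_, ?_, ?_⟩
  · intro N
    have h0 := hS.meas (D N) (hmD N) 0
    simp only [Nat.cast_zero] at h0
    exact (h0.compl.union (Finset.measurableSet_biUnion _ fun i _ => hmE _ (hmC N i))).union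
      (Finset.measurableSet_biUnion _ fun i _ => hmE _ (hmRw N i))
  · -- probabilities
    have hT : ∀ N, 1 ≤ N → (T N : ℝ) ≤ l * N / w + 2 := by
      intro N hN
      have h1 : (0 : ℝ) ≤ l * N / (2 * w) := by positivity
      have h2 := (Nat.ceil_lt_add_one h1).le
      show ((2 * ⌈l * N / (2 * w)⌉₊ : ℕ) : ℝ) ≤ l * N / w + 2
      push_cast
      have h3 : l * N / w = 2 * (l * N / (2 * w)) := by
        field_simp
      rw [h3]
      linarith
    have hbound : ∀ N : ℕ, 1 ≤ N → ((T N : ℝ) + N + 1) * ((N + 1) * δ N ^ 2) ^ 2 ≤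
        16 * w ^ 4 * (l / w + 4) / N := by
      intro N hN
      have hN0 : (1 : ℝ) ≤ N := by exact_mod_cast hN
      have hNp : (0 : ℝ) < N := by linarith
      have e1 : δ N ^ 2 = 2 * w ^ 2 / N ^ 2 := by
        show (√2 * w / N) ^ 2 = 2 * w ^ 2 / N ^ 2
        rw [div_pow, mul_pow, Real.sq_sqrt (by norm_num)]
      rw [e1]
      have e2 : ((N + 1) * (2 * w ^ 2 / (N : ℝ) ^ 2)) ^ 2 = (N + 1) ^ 2 * (4 * w ^ 4 / N ^ 4) := by
        field_simp
        ring
      rw [e2]
      have e3 : (T N : ℝ) + N + 1 ≤ (l / w + 4) * N := by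
        have := hT N hN
        have e4 : l * N / w = l / w * N := by ring
        rw [e4] at this
        nlinarith
      have e5 : ((N : ℝ) + 1) ^ 2 ≤ 4 * N ^ 2 := by nlinarith
      have e6 : 0 ≤ 4 * w ^ 4 / (N : ℝ) ^ 4 := by positivity
      calc ((T N : ℝ) + N + 1) * (((N : ℝ) + 1) ^ 2 * (4 * w ^ 4 / N ^ 4))
          ≤ ((l / w + 4) * N) * (4 * N ^ 2 * (4 * w ^ 4 / N ^ 4)) := by
            apply mul_le_mul e3 (mul_le_mul_of_nonneg_right e5 e6) (by positivity) (by positivity)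
        _ = 16 * w ^ 4 * (l / w + 4) / N := by
            field_simp
            ring
    have hv : Tendsto (fun N => volume (D N)) atTop (𝓝 0) := hlim
    have hev : ∀ᶠ N in atTop, volume (D N) < ⊤ := by
      have := hv.eventually (gt_mem_nhds (show (0 : ENNReal) < ⊤ by simp))
      exact this
    have hle : ∀ᶠ N in atTop, P (B N) ≤
        (ENNReal.ofReal (1 - Real.exp (-(volume (D N)).toReal)) +
          ENNReal.ofReal (16 * w ^ 4 * (l / w + 4) / N)) +
          ENNReal.ofReal (16 * w ^ 4 * (l / w + 4) / N) := by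
      filter_upwards [hev, eventually_ge_atTop 1] with N hfin hN
      have hsum : ∀ (s : Finset ℤ) (Q : ℤ → Set (ℝ × ℝ)), (s.card : ℝ) ≤ (T N : ℝ) + N + 1 →
          (∀ i, MeasurableSet (Q i)) →
          (∀ i, volume (Q i) ≤ ENNReal.ofReal ((N + 1) * δ N ^ 2)) →
          P (⋃ i ∈ s, E (Q i)) ≤ ENNReal.ofReal (16 * w ^ 4 * (l / w + 4) / N) := by
        intro s Q hs hQ hvQ
        calc P (⋃ i ∈ s, E (Q i)) ≤ ∑ i ∈ s, P (E (Q i)) := measure_biUnion_finset_le _ _
          _ ≤ ∑ i ∈ s, ENNReal.ofReal (((N + 1) * δ N ^ 2) ^ 2) :=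
              Finset.sum_le_sum fun i _ => prob_two P S hS (Q i) (hQ i) _ (hvQ i)
          _ = ENNReal.ofReal ((s.card : ℝ) * ((N + 1) * δ N ^ 2) ^ 2) := by
              rw [Finset.sum_const, nsmul_eq_mul, ENNReal.ofReal_mul (Nat.cast_nonneg _),
                ENNReal.ofReal_natCast]
          _ ≤ ENNReal.ofReal (16 * w ^ 4 * (l / w + 4) / N) := by
              apply ENNReal.ofReal_le_ofReal
              refine le_trans (mul_le_mul_of_nonneg_right hs (by positivity)) (hbound N hN)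
      refine (measure_union_le _ _).trans (add_le_add ((measure_union_le _ _).trans
        (add_le_add ?_ ?_)) ?_)
      · exact (prob_nonempty P S hS (D N) (hmD N) hfin).le
      · apply hsum _ _ _ (hmC N) (hvC N hN)
        rw [Int.card_Icc]
        have h1 : (((T N : ℤ) + 1 - -(N : ℤ)).toNat : ℤ) = T N + N + 1 := by
          rw [Int.toNat_of_nonneg (by omega)]
          ring
        have h2 : ((((T N : ℤ) + 1 - -(N : ℤ)).toNat : ℤ) : ℝ) = T N + N + 1 := by
          rw [h1]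
          push_cast
          ring
        rw [Int.cast_natCast] at h2
        exact h2.le
      · apply hsum _ _ _ (hmRw N) (hvR N hN)
        rw [Int.card_Icc]
        have h1 : (((T N : ℤ) + N + 1 - 0).toNat : ℤ) = T N + N + 1 := by
          rw [Int.toNat_of_nonneg (by omega)]
          ring
        have h2 : ((((T N : ℤ) + N + 1 - 0).toNat : ℤ) : ℝ) = T N + N + 1 := by
          rw [h1]
          push_cast
          ring
        rw [Int.cast_natCast] at h2
        exact h2.le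
    refine tendsto_of_tendsto_of_tendsto_of_le_of_le' tendsto_const_nhds ?_
      (Eventually.of_forall fun _ => zero_le) hle
    have h1 : Tendsto (fun N => (volume (D N)).toReal) atTop (𝓝 0) := by
      have := (ENNReal.tendsto_toReal ENNReal.zero_ne_top).comp hv
      rw [ENNReal.toReal_zero] at this
      exact this
    have h2 : Tendsto (fun N => ENNReal.ofReal (1 - Real.exp (-(volume (D N)).toReal))) atTop
        (𝓝 0) := by
      have h3 : Tendsto (fun N => 1 - Real.exp (-(volume (D N)).toReal)) atTop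
          (𝓝 (1 - Real.exp (-0))) :=
        tendsto_const_nhds.sub ((Real.continuous_exp.tendsto _).comp h1.neg)
      rw [neg_zero, Real.exp_zero, sub_self] at h3
      have := ENNReal.tendsto_ofReal h3
      simpa using this
    have h4 : Tendsto (fun N : ℕ => ENNReal.ofReal (16 * w ^ 4 * (l / w + 4) / N)) atTop
        (𝓝 0) := by
      have h5 : Tendsto (fun N : ℕ => 16 * w ^ 4 * (l / w + 4) / (N : ℝ)) atTop (𝓝 0) :=
        tendsto_const_nhds.div_atTop tendsto_natCast_atTop_atTop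
      have := ENNReal.tendsto_ofReal h5
      simpa using this
    have := (h2.add h4).add h4
    simpa using this
  · intro N hN ω hω
    have hω1 : (S ω ∩ D N).encard = 0 := by
      by_contra hc
      exact hω (Or.inl (Or.inl hc))
    have hω2 : ∀ i ∈ Finset.Icc (-(N : ℤ)) (T N), ω ∉ E (C N i) := by
      intro i hi hc
      exact hω (Or.inl (Or.inr (Set.mem_biUnion hi hc)))
    have hω3 : ∀ i ∈ Finset.Icc (0 : ℤ) (T N + N), ω ∉ E (R N i) := by
      intro i hi hc
      exact hω (Or.inr (Set.mem_biUnion hi hc))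
    rw [Set.encard_eq_zero] at hω1
    constructor
    · intro z hz
      constructor
      · intro h
        by_contra hc
        have : z ∈ S ω ∩ D N := ⟨hz, Or.inl ⟨h, hc⟩⟩
        rw [hω1] at this
        exact this
      · intro h
        by_contra hc
        have : z ∈ S ω ∩ D N := ⟨hz, Or.inr ⟨h, hc⟩⟩
        rw [hω1] at this
        exact this
    · intro z hz z' hz' hzU hzU' hne
      obtain ⟨-, -, a3, a4, a5, a6⟩ := hU N hN z hzU
      constructor
      · intro he
        apply hne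
        exact hE2 _ ω (hω2 ⌊z.1 / δ N⌋ (Finset.mem_Icc.2 ⟨a3, a4⟩)) z ⟨hz, hzU, rfl⟩ z'
          ⟨hz', hzU', he.symm⟩
      · intro he
        apply hne
        exact hE2 _ ω (hω3 ⌊z.2 / δ N⌋ (Finset.mem_Icc.2 ⟨a5, a6⟩)) z ⟨hz, hzU, rfl⟩ z'
          ⟨hz', hzU', he.symm⟩

end Pool.Agent.Helper38_Strip.H44
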