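import Pool.Agent.Helper38_Strip.Statements

/-!
# Module BOXGOOD for MP_cd3e9c_pr: for good configurations the two models agree
-/

namespace Pool.Agent.Helper38_Strip.H44

open Finset MeasureTheory Filter Topology

theorem mem_box_floor {δ : ℝ} (hδ : 0 < δ) {i j : ℤ} {z : ℝ × ℝ} :
    z ∈ box δ i j ↔ ⌊z.1 / δ⌋ = i ∧ ⌊z.2 / δ⌋ = j := by
  unfold box
  rw [Set.mem_ofPred_eq, Int.floor_eq_iff, Int.floor_eq_iff, le_div_iff₀ hδ, div_lt_iff₀ hδ,
    le_div_iff₀ hδ, div_lt_iff₀ hδ]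
  tauto

theorem floor_lt_imp {δ x y : ℝ} (hδ : 0 < δ) (h : ⌊x / δ⌋ < ⌊y / δ⌋) : x < y := by
  have h1 := Int.lt_floor_add_one (x / δ)
  have h2 := Int.floor_le (y / δ)
  have h3 : ((⌊x / δ⌋ : ℤ) : ℝ) + 1 ≤ ((⌊y / δ⌋ : ℤ) : ℝ) := by exact_mod_cast h
  have h4 : x / δ < y / δ := by linarith
  exact (div_lt_div_iff_of_pos_right hδ).1 h4

theorem floor_mono {δ x y : ℝ} (hδ : 0 < δ) (h : x ≤ y) : ⌊x / δ⌋ ≤ ⌊y / δ⌋ :=
  Int.floor_le_floor ((div_le_div_iff_of_pos_right hδ).2 h)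

/-- BOXGOOD -/
theorem boxGood (hPath : PathChainStatement) (hLpp : LppChainStatement) : BoxGoodStatement := by
  classical
  intro S l w δ T N hl hw hδ hN hG
  -- points of `S` in the rectangle
  have hmemUN : ∀ z, z ∈ UN δ T N ↔ ∃ t < T, ∃ m ≤ N, (t + m) % 2 = 0 ∧
      ⌊z.1 / δ⌋ = ix T N t m ∧ ⌊z.2 / δ⌋ = iy t m := by
    intro z
    unfold UN
    rw [Set.mem_ofPred_eq]
    constructor
    · rintro ⟨t, ht, m, hm, hp, hz⟩
      exact ⟨t, ht, m, hm, hp, (mem_box_floor hδ).1 hz⟩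
    · rintro ⟨t, ht, m, hm, hp, hz⟩
      exact ⟨t, ht, m, hm, hp, (mem_box_floor hδ).2 hz⟩
  have hinj : ∀ z ∈ S, ∀ z' ∈ S, z ∈ UN δ T N → z' ∈ UN δ T N → ⌊z.1 / δ⌋ = ⌊z'.1 / δ⌋ → z = z' := by
    intro z hz z' hz' h h' he
    by_contra hne
    exact (hG.sep z hz z' hz' h h' hne).1 he
  have hfin : (S ∩ rect l w).Finite := by
    have hsub : S ∩ rect l w = S ∩ UN δ T N := by
      ext z
      constructor
      · rintro ⟨h1, h2⟩
        exact ⟨h1, (hG.sub z h1).1 h2⟩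
      · rintro ⟨h1, h2⟩
        exact ⟨h1, (hG.sub z h1).2 h2⟩
    rw [hsub]
    have hI : Set.InjOn (fun z : ℝ × ℝ => ⌊z.1 / δ⌋) (S ∩ UN δ T N) := by
      intro z hz z' hz' he
      exact hinj z hz.1 z' hz'.1 hz.2 hz'.2 he
    refine Set.Finite.of_finite_image ?_ hI
    refine Set.Finite.subset (Set.finite_Icc (-(N : ℤ)) (T : ℤ)) ?_
    rintro _ ⟨z, hz, rfl⟩
    obtain ⟨t, ht, m, hm, hp, h1, h2⟩ := (hmemUN z).1 hz.2
    simp only [Set.mem_Icc]
    rw [h1]
    unfold ix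
    rw [if_pos hp]
    constructor <;> omega
  obtain ⟨⟨A, hAsub, hAch, hAc⟩, hAu⟩ := hPath S l w hl hw hfin
  obtain ⟨⟨D, hD, hDc⟩, hDu⟩ := hLpp N T hN (envS δ T N S)
  apply le_antisymm
  · -- from points to sites
    rw [← hAc]
    have hsite : ∀ z ∈ A, ∃ a : Fin T × Fin (N + 1), ((a.1 : ℕ) + (a.2 : ℕ)) % 2 = 0 ∧
        ⌊z.1 / δ⌋ = ix T N a.1 a.2 ∧ ⌊z.2 / δ⌋ = iy a.1 a.2 := by
      intro z hz
      have h1 := hAsub hz
      obtain ⟨t, ht, m, hm, hp, h2, h3⟩ := (hmemUN z).1 ((hG.sub z h1.1).1 h1.2)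
      exact ⟨(⟨t, ht⟩, ⟨m, by omega⟩), hp, h2, h3⟩
    have hT : A.Nonempty → Nonempty (Fin T × Fin (N + 1)) := by
      rintro ⟨z, hz⟩
      obtain ⟨a, -⟩ := hsite z hz
      exact ⟨a⟩
    rcases A.eq_empty_or_nonempty with rfl | hne
    · have := hDu ∅ ⟨by simp, by simp⟩
      simpa using this
    · have := hT hne
      choose! g hg using hsite
      have hgi : Set.InjOn g A := by
        intro z hz z' hz' he
        have h1 := hAsub hz
        have h1' := hAsub hz'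
        refine hinj z h1.1 z' h1'.1 ((hG.sub z h1.1).1 h1.2) ((hG.sub z' h1'.1).1 h1'.2) ?_
        rw [(hg z hz).2.1, (hg z' hz').2.1, he]
      have hch : DChain (envS δ T N S) (A.image g) := by
        constructor
        · intro a ha
          obtain ⟨z, hz, rfl⟩ := Finset.mem_image.1 ha
          refine ⟨(hg z hz).1, ?_⟩
          unfold envS
          rw [decide_eq_true_iff]
          exact ⟨z, (hAsub hz).1, (mem_box_floor hδ).2 (hg z hz).2⟩
        · intro a ha b hb hab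
          obtain ⟨z, hz, rfl⟩ := Finset.mem_image.1 ha
          obtain ⟨z', hz', rfl⟩ := Finset.mem_image.1 hb
          have hzz : z ≠ z' := fun h => hab (by rw [h])
          have h1 := hAsub hz
          have h1' := hAsub hz'
          obtain ⟨s1, s2⟩ := hG.sep z h1.1 z' h1'.1 ((hG.sub z h1.1).1 h1.2)
            ((hG.sub z' h1'.1).1 h1'.2) hzz
          obtain ⟨p1, p2, p3⟩ := hg z hz
          obtain ⟨q1, q2, q3⟩ := hg z' hz'
          have hcmp : (⌊z.1 / δ⌋ < ⌊z'.1 / δ⌋ ∧ ⌊z.2 / δ⌋ < ⌊z'.2 / δ⌋) ∨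
              (⌊z'.1 / δ⌋ < ⌊z.1 / δ⌋ ∧ ⌊z'.2 / δ⌋ < ⌊z.2 / δ⌋) := by
            rcases hAch z hz z' hz' with h | h
            · left
              exact ⟨lt_of_le_of_ne (floor_mono hδ h.1) s1, lt_of_le_of_ne (floor_mono hδ h.2) s2⟩
            · right
              exact ⟨lt_of_le_of_ne (floor_mono hδ h.1) (Ne.symm s1),
                lt_of_le_of_ne (floor_mono hδ h.2) (Ne.symm s2)⟩
          rw [p2, p3, q2, q3] at hcmp
          unfold ix iy at hcmp
          rw [if_pos p1, if_pos q1] at hcmp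
          rw [lt_abs, abs_lt, abs_lt]
          rcases hcmp with ⟨c1, c2⟩ | ⟨c1, c2⟩
          · right
            constructor <;> omega
          · left
            constructor <;> omega
      have := hDu _ hch
      rw [Finset.card_image_of_injOn hgi] at this
      exact this
  · -- from sites to points
    rw [← hDc]
    have hpt : ∀ a ∈ D, ∃ z ∈ S, ⌊z.1 / δ⌋ = ix T N a.1 a.2 ∧ ⌊z.2 / δ⌋ = iy a.1 a.2 := by
      intro a ha
      have h1 := (hD.1 a ha).2
      unfold envS at h1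
      rw [decide_eq_true_iff] at h1
      obtain ⟨z, hz, hb⟩ := h1
      exact ⟨z, hz, (mem_box_floor hδ).1 hb⟩
    choose! g hg using hpt
    have hgi : Set.InjOn g D := by
      intro a ha b hb he
      obtain ⟨p0, p1, p2⟩ := hg a ha
      obtain ⟨q0, q1, q2⟩ := hg b hb
      have hpa := (hD.1 a ha).1
      have hpb := (hD.1 b hb).1
      rw [he] at p1 p2
      rw [p1] at q1
      rw [p2] at q2
      unfold ix at q1
      unfold iy at q2
      rw [if_pos hpa, if_pos hpb] at q1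
      refine Prod.ext (Fin.ext ?_) (Fin.ext ?_)
      · omega
      · omega
    have hsub : (↑(D.image g) : Set (ℝ × ℝ)) ⊆ S ∩ rect l w := by
      intro z hz
      obtain ⟨a, ha, rfl⟩ := Finset.mem_image.1 (Finset.mem_coe.1 hz)
      obtain ⟨p0, p1, p2⟩ := hg a ha
      refine ⟨p0, (hG.sub _ p0).2 ((hmemUN _).2 ?_)⟩
      exact ⟨a.1, a.1.2, a.2, by have := a.2.2; omega, (hD.1 a ha).1, p1, p2⟩
    have hch : PChain (D.image g) := by
      intro z hz z' hz'
      obtain ⟨a, ha, rfl⟩ := Finset.mem_image.1 hz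
      obtain ⟨b, hb, rfl⟩ := Finset.mem_image.1 hz'
      by_cases hab : a = b
      · subst hab
        exact Or.inl le_rfl
      · have h1 := hD.2 a ha b hb hab
        obtain ⟨p0, p1, p2⟩ := hg a ha
        obtain ⟨q0, q1, q2⟩ := hg b hb
        have hpa := (hD.1 a ha).1
        have hpb := (hD.1 b hb).1
        unfold ix at p1 q1
        unfold iy at p2 q2
        rw [if_pos hpa] at p1
        rw [if_pos hpb] at q1
        rw [lt_abs, abs_lt, abs_lt] at h1
        rcases h1 with ⟨c1, c2⟩ | ⟨c1, c2⟩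
        · right
          refine ⟨le_of_lt (floor_lt_imp hδ ?_), le_of_lt (floor_lt_imp hδ ?_)⟩
          · rw [p1, q1]; omega
          · rw [p2, q2]; omega
        · left
          refine ⟨le_of_lt (floor_lt_imp hδ ?_), le_of_lt (floor_lt_imp hδ ?_)⟩
          · rw [p1, q1]; omega
          · rw [p2, q2]; omega
    have := hAu _ hsub hch
    rw [Finset.card_image_of_injOn hgi] at this
    exact_mod_cast this

end Pool.Agent.Helper38_Strip.H44
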