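import Pool.Agent.Helper38_Strip.Statements

/-!
# Module LAWBOX for MP_cd3e9c_pr: law of the occupied squares
-/

namespace Pool.Agent.Helper38_Strip.H44

open Finset MeasureTheory Filter Topology ProbabilityTheory

universe u

theorem box_eq_prod (δ : ℝ) (i j : ℤ) :
    box δ i j = Set.Ico (i * δ) ((i + 1) * δ) ×ˢ Set.Ico (j * δ) ((j + 1) * δ) := by
  ext z
  unfold box
  rw [Set.mem_ofPred_eq, Set.mem_prod, Set.mem_Ico, Set.mem_Ico]
  tauto

theorem measurableSet_box (δ : ℝ) (i j : ℤ) : MeasurableSet (box δ i j) := by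
  rw [box_eq_prod]
  exact measurableSet_Ico.prod measurableSet_Ico

theorem volume_box {δ : ℝ} (hδ : 0 ≤ δ) (i j : ℤ) : volume (box δ i j) = ENNReal.ofReal (δ ^ 2) := by
  rw [box_eq_prod, Measure.volume_eq_prod, Measure.prod_prod, Real.volume_Ico, Real.volume_Ico,
    ← ENNReal.ofReal_mul (by nlinarith)]
  congr 1
  ring

theorem box_disjoint {δ : ℝ} (hδ : 0 < δ) {i j i' j' : ℤ} (h : i ≠ i' ∨ j ≠ j') :
    Disjoint (box δ i j) (box δ i' j') := by
  rw [Set.disjoint_left]
  intro z hz hz'
  have key : ∀ (a b : ℤ) (x : ℝ), a * δ ≤ x → x < (a + 1) * δ → b * δ ≤ x → x < (b + 1) * δ →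
      a = b := by
    intro a b x h1 h2 h3 h4
    have h5 : (a : ℝ) * δ < (b + 1) * δ := lt_of_le_of_lt h1 h4
    have h6 : (b : ℝ) * δ < (a + 1) * δ := lt_of_le_of_lt h3 h2
    have h7 : (a : ℝ) < b + 1 := lt_of_mul_lt_mul_right h5 hδ.le
    have h8 : (b : ℝ) < a + 1 := lt_of_mul_lt_mul_right h6 hδ.le
    have h9 : a < b + 1 := by exact_mod_cast h7
    have h10 : b < a + 1 := by exact_mod_cast h8
    omega
  obtain ⟨a1, a2, a3, a4⟩ := hz
  obtain ⟨b1, b2, b3, b4⟩ := hz'
  rcases h with h | h
  · exact h (key i i' z.1 a1 a2 b1 b2)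
  · exact h (key j j' z.2 a3 a4 b3 b4)

theorem site_inj {T N : ℕ} {a b : Fin T × Fin (N + 1)} (h : a ≠ b) :
    ix T N a.1 a.2 ≠ ix T N b.1 b.2 ∨ iy a.1 a.2 ≠ iy b.1 b.2 := by
  by_contra hc
  push Not at hc
  obtain ⟨h1, h2⟩ := hc
  apply h
  have a1 := a.1.2
  have a2 := a.2.2
  have b1 := b.1.2
  have b2 := b.2.2
  unfold ix at h1
  unfold iy at h2
  refine Prod.ext (Fin.ext ?_) (Fin.ext ?_)
  · split_ifs at h1 <;> omega
  · split_ifs at h1 <;> omega

/-- the events that the squares are empty are independent -/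
theorem indep_empty {Ω : Type u} [MeasurableSpace Ω] (P : Measure Ω) [IsProbabilityMeasure P]
    (S : Ω → Set (ℝ × ℝ)) (hS : IsPoissonProcess P S) {ι : Type} [Fintype ι]
    (B : ι → Set (ℝ × ℝ)) (hB : ∀ i, MeasurableSet (B i)) (hv : ∀ i, volume (B i) < ⊤)
    (hd : ∀ i j, i ≠ j → Disjoint (B i) (B j)) :
    iIndepSet (fun i => {ω | (S ω ∩ B i).encard = 0}) P ∧
      ∀ i, P {ω | (S ω ∩ B i).encard = 0} = ENNReal.ofReal (Real.exp (-(volume (B i)).toReal)) := by
  have hm : ∀ i, MeasurableSet {ω | (S ω ∩ B i).encard = 0} := fun i => by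
    have := hS.meas (B i) (hB i) 0
    simpa using this
  have key : ∀ t : Finset ι, P (⋂ i ∈ t, {ω | (S ω ∩ B i).encard = 0}) =
      ∏ i ∈ t, ENNReal.ofReal (Real.exp (-(volume (B i)).toReal)) := by
    intro t
    have h := hS.law t.card (fun k => B (t.equivFin.symm k)) (fun k => hB _) (fun k => hv _)
      (fun i j hij => hd _ _ fun h => hij (t.equivFin.symm.injective (Subtype.ext h)))
      (fun _ => 0)
    simp only [Nat.cast_zero, pow_zero, mul_one, Nat.factorial_zero, Nat.cast_one, div_one] at h
    have h1 : (⋂ i ∈ t, {ω | (S ω ∩ B i).encard = 0}) =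
        ⋂ k : Fin t.card, {ω | (S ω ∩ B (t.equivFin.symm k)).encard = 0} := by
      ext ω
      simp only [Set.mem_iInter]
      constructor
      · intro h k
        exact h _ (t.equivFin.symm k).2
      · intro h i hi
        have := h (t.equivFin ⟨i, hi⟩)
        simpa using this
    rw [h1, h, ← Finset.prod_coe_sort t]
    exact Equiv.prod_comp t.equivFin.symm
      fun i : t => ENNReal.ofReal (Real.exp (-(volume (B i)).toReal))
  have h1 : ∀ i, P {ω | (S ω ∩ B i).encard = 0} =
      ENNReal.ofReal (Real.exp (-(volume (B i)).toReal)) := by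
    intro i
    have := key {i}
    simpa using this
  refine ⟨?_, h1⟩
  rw [iIndepSet_iff_meas_biInter hm]
  intro t
  rw [key t]
  exact Finset.prod_congr rfl fun i _ => (h1 i).symm

/-- LAWBOX -/
theorem lawBox : LawBoxStatement.{u} := by
  classical
  intro Ω mΩ P hP S hS w T N hw hN η
  have hδ : 0 < del w N := by
    unfold del
    have : (0 : ℝ) < N := by exact_mod_cast hN
    positivity
  set δ := del w N with hδdef
  let B : Fin T × Fin (N + 1) → Set (ℝ × ℝ) := fun a => box δ (ix T N a.1 a.2) (iy a.1 a.2)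
  have hvol : ∀ a, volume (B a) = ENNReal.ofReal (δ ^ 2) := fun a => volume_box hδ.le _ _
  obtain ⟨hI, hPe⟩ := indep_empty P S hS B (fun a => measurableSet_box _ _ _)
    (fun a => by rw [hvol]; exact ENNReal.ofReal_lt_top)
    (fun a b hab => box_disjoint hδ (site_inj hab))
  have hm : ∀ a, MeasurableSet {ω | (S ω ∩ B a).encard = 0} := fun a => by
    have := hS.meas (B a) (measurableSet_box _ _ _) 0
    simpa using this
  let G : Fin T × Fin (N + 1) → Set Ω := fun a =>
    if η a.1 a.2 = true then {ω | (S ω ∩ B a).encard = 0}ᶜ else {ω | (S ω ∩ B a).encard = 0}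
  have hset : {ω | envS δ T N (S ω) = η} = ⋂ a, G a := by
    ext ω
    simp only [Set.mem_iInter]
    constructor
    · intro h a
      have h' : envS δ T N (S ω) a.1 a.2 = η a.1 a.2 := by
        have h'' : envS δ T N (S ω) = η := h
        rw [h'']
      unfold envS at h'
      simp only [G]
      by_cases ha : η a.1 a.2 = true
      · rw [if_pos ha]
        rw [ha, decide_eq_true_iff] at h'
        intro hc
        have hc' : (S ω ∩ B a).encard = 0 := hc
        rw [Set.encard_eq_zero] at hc'
        rw [Set.nonempty_iff_ne_empty] at h'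
        exact h' hc'
      · rw [if_neg ha]
        rw [Bool.not_eq_true] at ha
        rw [ha, decide_eq_false_iff_not, Set.not_nonempty_iff_eq_empty] at h'
        show (S ω ∩ B a).encard = 0
        rw [Set.encard_eq_zero]
        exact h'
    · intro h
      show envS δ T N (S ω) = η
      funext t m
      have h1 := h (t, m)
      simp only [G] at h1
      unfold envS
      by_cases ha : η t m = true
      · rw [if_pos ha] at h1
        rw [ha, decide_eq_true_iff, Set.nonempty_iff_ne_empty]
        intro hc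
        apply h1
        show (S ω ∩ B (t, m)).encard = 0
        rw [Set.encard_eq_zero]
        exact hc
      · rw [if_neg ha] at h1
        rw [Bool.not_eq_true] at ha
        have h2 : (S ω ∩ B (t, m)).encard = 0 := h1
        rw [Set.encard_eq_zero] at h2
        rw [ha, decide_eq_false_iff_not, Set.not_nonempty_iff_eq_empty]
        exact h2
  have hGm : ∀ a, MeasurableSet[MeasurableSpace.generateFrom {({ω | (S ω ∩ B a).encard = 0} : Set Ω)}]
      (G a) := by
    intro a
    have h0 : MeasurableSet[MeasurableSpace.generateFrom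
        {({ω | (S ω ∩ B a).encard = 0} : Set Ω)}] {ω | (S ω ∩ B a).encard = 0} :=
      MeasurableSpace.measurableSet_generateFrom (Set.mem_singleton _)
    simp only [G]
    split_ifs
    · exact h0.compl
    · exact h0
  have hGm' : ∀ a, MeasurableSet (G a) := by
    intro a
    simp only [G]
    split_ifs
    · exact (hm a).compl
    · exact hm a
  constructor
  · rw [hset]
    exact MeasurableSet.iInter hGm'
  · rw [hset]
    have h1 := iIndep.meas_iInter (μ := P)
      (m := fun a => MeasurableSpace.generateFrom {({ω | (S ω ∩ B a).encard = 0} : Set Ω)})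
      (s := G) hI hGm
    rw [h1]
    have h2 : ∀ a, P (G a) = ENNReal.ofReal (if η a.1 a.2 = true then pN w N else 1 - pN w N) := by
      intro a
      have h3 : P {ω | (S ω ∩ B a).encard = 0} = ENNReal.ofReal (1 - pN w N) := by
        rw [hPe a, hvol a, ENNReal.toReal_ofReal (by positivity)]
        unfold pN
        rw [← hδdef, sub_sub_cancel]
      simp only [G]
      split_ifs with ha
      · rw [prob_compl_eq_one_sub (hm a), h3]
        have h4 : pN w N ≤ 1 := by
          unfold pN
          have := Real.exp_pos (-(del w N) ^ 2)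
          linarith
        rw [show (1 : ENNReal) = ENNReal.ofReal 1 by simp, ← ENNReal.ofReal_sub _ (by linarith)]
        congr 1
        ring
      · exact h3
    simp_rw [h2]
    have h5 : 0 ≤ pN w N ∧ 0 ≤ 1 - pN w N := by
      unfold pN
      have h6 := Real.exp_pos (-(del w N) ^ 2)
      have h7 : Real.exp (-(del w N) ^ 2) ≤ 1 :=
        Real.exp_le_one_iff.2 (by nlinarith [sq_nonneg (del w N)])
      constructor <;> linarith
    rw [← ENNReal.ofReal_prod_of_nonneg, Fintype.prod_prod_type]
    · rfl
    · intro a _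
      split_ifs
      · exact h5.1
      · exact h5.2

end Pool.Agent.Helper38_Strip.H44
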