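import Pool.Agent.Helper38_Strip.Statements

/-!
# Module LPPCHAIN for MP_cd3e9c_pr: the discrete height is the length of the longest chain
-/

namespace Pool.Agent.Helper38_Strip.H44

open Finset MeasureTheory Filter Topology

/-- heights driven by a total array -/
def hO (N : ℕ) (o : ℕ → ℕ → Bool) : ℕ → ℕ → ℤ
  | 0, _ => 0
  | T + 1, m =>
    if (T + m) % 2 = 0 then
      max (hO N o T m + if o T m = true then 1 else 0)
        (max (hO N o T (m - 1)) (hO N o T (min (m + 1) N)))
    else hO N o T m

theorem flatH_eq (N : ℕ) (o : ℕ → ℕ → Bool) : ∀ (T : ℕ) (ω : Env T N),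
    (∀ (t : ℕ) (ht : t < T) (m : ℕ), m ≤ N → o t m = rb (ω ⟨t, ht⟩) m) →
      ∀ m ≤ N, flatH N T ω m = hO N o T m
  | 0, ω, _, m, _ => rfl
  | T + 1, ω, h, m, hm => by
    have ih := flatH_eq N o T (fun s => ω s.castSucc) (fun t ht m hm => h t (by omega) m hm)
    have hT : o T m = rb (ω (Fin.last T)) m := h T (by omega) m hm
    show updH N T (flatH N T (fun s => ω s.castSucc)) (ω (Fin.last T)) m = hO N o (T + 1) m
    unfold updH hO
    rw [ih m hm, ih (m - 1) (by omega), ih (min (m + 1) N) (min_le_right _ _), hT]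

/-- chain of open sites below `(T, m)` -/
def CB (N : ℕ) (o : ℕ → ℕ → Bool) (T : ℕ) (m : ℕ) (A : Finset (ℕ × ℕ)) : Prop :=
  (∀ a ∈ A, a.2 ≤ N ∧ (a.1 + a.2) % 2 = 0 ∧ o a.1 a.2 = true ∧
    |(a.2 : ℤ) - (m : ℤ)| < (T : ℤ) - (a.1 : ℤ)) ∧
  ∀ a ∈ A, ∀ b ∈ A, a ≠ b → |(a.2 : ℤ) - (b.2 : ℤ)| < |(a.1 : ℤ) - (b.1 : ℤ)|

theorem CB_mono {N : ℕ} {o : ℕ → ℕ → Bool} {T m T' m' : ℕ} {A : Finset (ℕ × ℕ)}
    (h : CB N o T m A) (hT : |(m : ℤ) - (m' : ℤ)| ≤ (T' : ℤ) - (T : ℤ)) : CB N o T' m' A := by
  refine ⟨fun a ha => ?_, h.2⟩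
  obtain ⟨h1, h2, h3, h4⟩ := h.1 a ha
  refine ⟨h1, h2, h3, ?_⟩
  rw [abs_lt] at *
  rw [abs_le] at hT
  constructor <;> omega

/-- if the top element is below `(T, m)` then everything is -/
theorem CB_top {N : ℕ} {o : ℕ → ℕ → Bool} {T m m' : ℕ} {A : Finset (ℕ × ℕ)}
    (h : CB N o (T + 1) m A) (b : ℕ × ℕ) (hb : b ∈ A) (hmax : ∀ a ∈ A, a.1 ≤ b.1)
    (hbm : |(b.2 : ℤ) - (m' : ℤ)| < (T : ℤ) - (b.1 : ℤ)) : CB N o T m' A := by
  refine ⟨fun a ha => ?_, h.2⟩
  obtain ⟨h1, h2, h3, h4⟩ := h.1 a ha
  refine ⟨h1, h2, h3, ?_⟩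
  by_cases hab : a = b
  · subst hab
    exact hbm
  · have h5 := h.2 a ha b hb hab
    have h6 := hmax a ha
    rw [abs_of_nonpos (by omega : (a.1 : ℤ) - (b.1 : ℤ) ≤ 0)] at h5
    rw [abs_lt] at *
    constructor <;> omega

theorem hO_spec (N : ℕ) (o : ℕ → ℕ → Bool) : ∀ (T m : ℕ), m ≤ N →
    (∃ A, CB N o T m A ∧ (A.card : ℤ) = hO N o T m) ∧
      ∀ A, CB N o T m A → (A.card : ℤ) ≤ hO N o T m
  | 0, m, _ => by
    constructor
    · exact ⟨∅, ⟨by simp, by simp⟩, by simp [hO]⟩
    · intro A hA
      have : A = ∅ := by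
        rw [Finset.eq_empty_iff_forall_notMem]
        intro a ha
        have h := (hA.1 a ha).2.2.2
        have h0 := abs_nonneg ((a.2 : ℤ) - (m : ℤ))
        push_cast at h
        omega
      simp [this, hO]
  | T + 1, m, hm => by
    obtain ⟨⟨A0, hA0, hc0⟩, hu0⟩ := hO_spec N o T m hm
    obtain ⟨⟨A1, hA1, hc1⟩, hu1⟩ := hO_spec N o T (m - 1) (by omega)
    obtain ⟨⟨A2, hA2, hc2⟩, hu2⟩ := hO_spec N o T (min (m + 1) N) (min_le_right _ _)
    have e1 : |((m - 1 : ℕ) : ℤ) - (m : ℤ)| ≤ ((T + 1 : ℕ) : ℤ) - (T : ℤ) := by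
      rw [abs_le]; push_cast; omega
    have e2 : |((min (m + 1) N : ℕ) : ℤ) - (m : ℤ)| ≤ ((T + 1 : ℕ) : ℤ) - (T : ℤ) := by
      rw [abs_le]; push_cast; omega
    have e0 : |(m : ℤ) - (m : ℤ)| ≤ ((T + 1 : ℕ) : ℤ) - (T : ℤ) := by
      rw [abs_le]; push_cast; omega
    by_cases hpar : (T + m) % 2 = 0
    · have hval : hO N o (T + 1) m = max (hO N o T m + if o T m = true then 1 else 0)
          (max (hO N o T (m - 1)) (hO N o T (min (m + 1) N))) := by
        conv_lhs => unfold hO
        rw [if_pos hpar]
      rw [hval]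
      constructor
      · rcases max_choice (hO N o T m + if o T m = true then 1 else 0)
          (max (hO N o T (m - 1)) (hO N o T (min (m + 1) N))) with h | h
        · rw [h]
          by_cases ho : o T m = true
          · rw [if_pos ho]
            have hnot : ((T, m) : ℕ × ℕ) ∉ A0 := by
              intro hmem
              have := (hA0.1 _ hmem).2.2.2
              simp at this
            refine ⟨insert (T, m) A0, ⟨?_, ?_⟩, ?_⟩
            · intro a ha
              rcases Finset.mem_insert.1 ha with rfl | ha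
              · refine ⟨hm, hpar, ho, ?_⟩
                simp
              · exact (CB_mono hA0 e0).1 a ha
            · intro a ha b hb hab
              rcases Finset.mem_insert.1 ha with rfl | ha
              · rcases Finset.mem_insert.1 hb with rfl | hb
                · exact absurd rfl hab
                · have := (hA0.1 b hb).2.2.2
                  have h0 := abs_nonneg ((b.2 : ℤ) - (m : ℤ))
                  rw [abs_of_nonneg (by simp only; omega : (0 : ℤ) ≤ ((T, m).1 : ℤ) - (b.1 : ℤ)),
                    abs_sub_comm]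
                  exact this
              · rcases Finset.mem_insert.1 hb with rfl | hb
                · have := (hA0.1 a ha).2.2.2
                  have h0 := abs_nonneg ((a.2 : ℤ) - (m : ℤ))
                  rw [abs_sub_comm (a.1 : ℤ),
                    abs_of_nonneg (by simp only; omega : (0 : ℤ) ≤ ((T, m).1 : ℤ) - (a.1 : ℤ))]
                  exact this
                · exact hA0.2 a ha b hb hab
            · rw [Finset.card_insert_of_notMem hnot]
              push_cast
              rw [hc0]
          · rw [if_neg ho, add_zero]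
            exact ⟨A0, CB_mono hA0 e0, hc0⟩
        · rw [h]
          rcases max_choice (hO N o T (m - 1)) (hO N o T (min (m + 1) N)) with h | h
          · rw [h]
            exact ⟨A1, CB_mono hA1 e1, hc1⟩
          · rw [h]
            exact ⟨A2, CB_mono hA2 e2, hc2⟩
      · intro A hA
        by_cases hmem : ((T, m) : ℕ × ℕ) ∈ A
        · have ho := (hA.1 _ hmem).2.2.1
          simp only at ho
          rw [if_pos ho]
          have hsub : CB N o T m (A.erase (T, m)) := by
            refine ⟨fun a ha => ?_, fun a ha b hb hab =>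
              hA.2 a (Finset.mem_of_mem_erase ha) b (Finset.mem_of_mem_erase hb) hab⟩
            obtain ⟨hne, ha'⟩ := Finset.mem_erase.1 ha
            obtain ⟨h1, h2, h3, h4⟩ := hA.1 a ha'
            refine ⟨h1, h2, h3, ?_⟩
            have h5 := hA.2 a ha' _ hmem hne
            have h0 := abs_nonneg ((a.2 : ℤ) - (m : ℤ))
            push_cast at h4
            simp only at h5
            rw [abs_of_nonpos (by omega : (a.1 : ℤ) - (T : ℤ) ≤ 0)] at h5
            omega
          have h6 := hu0 _ hsub
          rw [Finset.card_erase_of_mem hmem] at h6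
          have h7 : 1 ≤ A.card := Finset.card_pos.2 ⟨_, hmem⟩
          refine le_trans ?_ (le_max_left _ _)
          push_cast [Nat.cast_sub h7] at h6
          omega
        · rcases A.eq_empty_or_nonempty with rfl | hne
          · have h7 := hu0 ∅ ⟨by simp, by simp⟩
            refine le_trans h7 (le_trans ?_ (le_max_left _ _))
            split_ifs <;> omega
          · obtain ⟨b, hb, hmax⟩ := Finset.exists_max_image A (fun a => a.1) hne
            obtain ⟨h1, h2, h3, h4⟩ := hA.1 b hb
            have h5 : b ≠ (T, m) := fun h => hmem (h ▸ hb)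
            have h6 : (b.1 : ℤ) < T := by
              by_contra hc
              push_cast at h4
              have h0 := abs_nonneg ((b.2 : ℤ) - (m : ℤ))
              have h01 : |(b.2 : ℤ) - (m : ℤ)| = 0 := by omega
              rw [abs_eq_zero] at h01
              apply h5
              ext
              · simp only; omega
              · simp only; omega
            push_cast at h4
            rw [abs_lt] at h4
            rcases lt_trichotomy b.2 m with hlt | heq | hgt
            · have h8 : CB N o T (m - 1) A := by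
                refine CB_top hA b hb hmax ?_
                rw [abs_lt]
                constructor <;> omega
              exact le_trans (hu1 A h8) (le_trans (le_max_left _ _) (le_max_right _ _))
            · have h8 : CB N o T m A := by
                refine CB_top hA b hb hmax ?_
                rw [abs_lt]
                constructor <;> omega
              refine le_trans (hu0 A h8) (le_trans ?_ (le_max_left _ _))
              split_ifs <;> omega
            · have h8 : CB N o T (min (m + 1) N) A := by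
                refine CB_top hA b hb hmax ?_
                rw [abs_lt]
                constructor <;> push_cast <;> omega
              exact le_trans (hu2 A h8) (le_trans (le_max_right _ _) (le_max_right _ _))
    · have hval : hO N o (T + 1) m = hO N o T m := by
        conv_lhs => unfold hO
        rw [if_neg hpar]
      rw [hval]
      constructor
      · exact ⟨A0, CB_mono hA0 e0, hc0⟩
      · intro A hA
        apply hu0
        refine ⟨fun a ha => ?_, hA.2⟩
        obtain ⟨h1, h2, h3, h4⟩ := hA.1 a ha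
        refine ⟨h1, h2, h3, ?_⟩
        push_cast at h4
        rw [abs_lt] at *
        constructor <;> omega

theorem le_mx {N : ℕ} (f : ℕ → ℤ) {m : ℕ} (hm : m ≤ N) : f m ≤ mx N f :=
  Finset.le_sup' f (Finset.mem_range.2 (by omega))

theorem exists_mx (N : ℕ) (f : ℕ → ℤ) : ∃ m ≤ N, mx N f = f m := by
  obtain ⟨m, hm, h⟩ := Finset.exists_mem_eq_sup' (nonempty_range_add_one (n := N)) f
  exact ⟨m, by have := Finset.mem_range.1 hm; omega, h⟩

/-- LPPCHAIN -/
theorem lppChain : LppChainStatement := by
  intro N T _ ω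
  classical
  let o : ℕ → ℕ → Bool := fun t m => if h : t < T then rb (ω ⟨t, h⟩) m else false
  have ho : ∀ (t : ℕ) (ht : t < T) (m : ℕ), m ≤ N → o t m = rb (ω ⟨t, ht⟩) m := by
    intro t ht m _
    simp only [o, ht, dif_pos]
  have hH : ∀ m ≤ N, flatH N T ω m = hO N o T m := flatH_eq N o T ω ho
  have hoo : ∀ (t : Fin T) (m : Fin (N + 1)), o t m = ω t m := by
    intro t m
    rw [ho t t.2 m (by have := m.2; omega)]
    unfold rb
    rw [dif_pos m.2]
  let emb : Fin T × Fin (N + 1) ↪ ℕ × ℕ :=
    ⟨fun a => ((a.1 : ℕ), (a.2 : ℕ)), by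
      intro a b hab
      simp only [Prod.mk.injEq] at hab
      exact Prod.ext (Fin.ext hab.1) (Fin.ext hab.2)⟩
  constructor
  · obtain ⟨m, hm, hmx⟩ := exists_mx N (flatH N T ω)
    obtain ⟨⟨A, hA, hc⟩, -⟩ := hO_spec N o T m hm
    refine ⟨univ.filter fun a => emb a ∈ A, ⟨?_, ?_⟩, ?_⟩
    · intro a ha
      have ha' := (Finset.mem_filter.1 ha).2
      obtain ⟨h1, h2, h3, h4⟩ := hA.1 _ ha'
      exact ⟨h2, by rw [← hoo]; exact h3⟩
    · intro a ha b hb hab
      exact hA.2 _ (Finset.mem_filter.1 ha).2 _ (Finset.mem_filter.1 hb).2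
        fun h => hab (emb.injective h)
    · have himg : (univ.filter fun a => emb a ∈ A).map emb = A := by
        ext b
        rw [Finset.mem_map]
        constructor
        · rintro ⟨a, ha, rfl⟩
          exact (Finset.mem_filter.1 ha).2
        · intro hb
          obtain ⟨h1, h2, h3, h4⟩ := hA.1 b hb
          have h0 := abs_nonneg ((b.2 : ℤ) - (m : ℤ))
          refine ⟨(⟨b.1, by omega⟩, ⟨b.2, by omega⟩), ?_, rfl⟩
          exact Finset.mem_filter.2 ⟨Finset.mem_univ _, hb⟩
      rw [← Finset.card_map emb, himg, hc, Lf, hmx, hH m hm]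
  · intro A hA
    have key : ∀ m ≤ N, (∀ a ∈ A, |((a.2 : ℕ) : ℤ) - (m : ℤ)| < (T : ℤ) - ((a.1 : ℕ) : ℤ)) →
        (A.card : ℤ) ≤ Lf ω := by
      intro m hm h
      have h1 : CB N o T m (A.map emb) := by
        constructor
        · intro b hb
          obtain ⟨a, ha, rfl⟩ := Finset.mem_map.1 hb
          refine ⟨by have := a.2.2; show (a.2 : ℕ) ≤ N; omega, (hA.1 a ha).1, ?_, h a ha⟩
          rw [← (hA.1 a ha).2]
          exact hoo a.1 a.2
        · intro b hb c hc hbc
          obtain ⟨a, ha, rfl⟩ := Finset.mem_map.1 hb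
          obtain ⟨a', ha', rfl⟩ := Finset.mem_map.1 hc
          exact hA.2 a ha a' ha' fun h => hbc (by rw [h])
      have h2 := (hO_spec N o T m hm).2 _ h1
      rw [Finset.card_map, ← hH m hm] at h2
      exact h2.trans (le_mx _ hm)
    rcases A.eq_empty_or_nonempty with rfl | hne
    · exact key 0 (Nat.zero_le _) (by simp)
    · obtain ⟨b, hb, hmax⟩ := Finset.exists_max_image A (fun a => (a.1 : ℕ)) hne
      refine key (b.2 : ℕ) (by have := b.2.2; omega) ?_
      intro a ha
      by_cases hab : a = b
      · subst hab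
        have := a.1.2
        rw [sub_self, abs_zero]
        omega
      · have h1 := hA.2 a ha b hb hab
        have h2 := hmax a ha
        have h3 := b.1.2
        rw [abs_of_nonpos (by omega : ((a.1 : ℕ) : ℤ) - ((b.1 : ℕ) : ℤ) ≤ 0)] at h1
        omega

end Pool.Agent.Helper38_Strip.H44
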