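import Pool.Agent.Helper38_Strip.Statements

namespace Pool.Agent.Helper38_Strip.H44

open Finset MeasureTheory Filter Topology Pool.Agent.Helper38_Strip

lemma rect_convex (l w : ℝ) : Convex ℝ (rect l w) := by
  have h2 : (0 : ℝ) < √2 := by positivity
  intro a ha b hb s t hs ht hst
  obtain ⟨a1, a2, a3, a4⟩ := ha
  obtain ⟨b1, b2, b3, b4⟩ := hb
  have e1 : ((s • a + t • b).1 + (s • a + t • b).2) / √2
      = s * ((a.1 + a.2) / √2) + t * ((b.1 + b.2) / √2) := by
    simp only [Prod.fst_add, Prod.snd_add, Prod.smul_fst, Prod.smul_snd, smul_eq_mul]; ring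
  have e2 : ((s • a + t • b).2 - (s • a + t • b).1) / √2
      = s * ((a.2 - a.1) / √2) + t * ((b.2 - b.1) / √2) := by
    simp only [Prod.fst_add, Prod.snd_add, Prod.smul_fst, Prod.smul_snd, smul_eq_mul]; ring
  refine ⟨?_, ?_, ?_, ?_⟩
  · rw [e1]; positivity
  · rw [e1]
    calc _ ≤ s * l + t * l := by gcongr
      _ = l := by rw [← add_mul, hst, one_mul]
  · rw [e2]; positivity
  · rw [e2]
    calc _ ≤ s * w + t * w := by gcongr
      _ = w := by rw [← add_mul, hst, one_mul]

/-- path through a chain in a convex set -/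
lemma exists_path {R : Set (ℝ × ℝ)} (hR : Convex ℝ R) :
    ∀ (n : ℕ) (A : Finset (ℝ × ℝ)), A.card = n + 1 → PChain A → (↑A : Set (ℝ × ℝ)) ⊆ R →
      ∃ γ : ℝ → ℝ × ℝ, ContinuousOn γ (Set.Icc 0 1) ∧ MonotoneOn γ (Set.Icc 0 1) ∧
        (∀ s ∈ Set.Icc (0 : ℝ) 1, γ s ∈ R) ∧ (∀ a ∈ A, a ∈ γ '' Set.Icc 0 1) ∧
        γ 1 ∈ A ∧ ∀ a ∈ A, a ≤ γ 1 := by
  intro n
  induction n with
  | zero =>
    intro A hA hc hAR
    obtain ⟨a, rfl⟩ := Finset.card_eq_one.mp (by simpa using hA)
    have haR : a ∈ R := hAR (by simp)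
    refine ⟨fun _ => a, continuousOn_const, fun _ _ _ _ _ => le_rfl, fun _ _ => haR, ?_, by simp, ?_⟩
    · intro b hb
      rw [Finset.mem_singleton] at hb
      exact ⟨0, ⟨le_rfl, zero_le_one⟩, hb.symm⟩
    · intro b hb
      rw [Finset.mem_singleton] at hb
      exact hb.le
  | succ n ih =>
    intro A hA hc hAR
    have hne : A.Nonempty := Finset.card_pos.mp (by omega)
    obtain ⟨m, hm⟩ := A.exists_maximal hne
    have hmax : ∀ a ∈ A, a ≤ m := by
      intro a ha
      rcases hc a ha m hm.1 with h | h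
      · exact h
      · exact hm.2 ha h
    have hmA : m ∈ A := hm.1
    have hcard : (A.erase m).card = n + 1 := by
      rw [Finset.card_erase_of_mem hmA, hA]; omega
    obtain ⟨γ, g1, g2, g3, g4, g5, g6⟩ := ih (A.erase m) hcard
      (fun a ha b hb => hc a (Finset.mem_of_mem_erase ha) b (Finset.mem_of_mem_erase hb))
      (fun a ha => hAR (Finset.mem_of_mem_erase (Finset.mem_coe.mp ha)))
    have hbm : γ 1 ≤ m := hmax _ (Finset.mem_of_mem_erase g5)
    have hbR : γ 1 ∈ R := g3 1 ⟨zero_le_one, le_rfl⟩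
    have hmR : m ∈ R := hAR hmA
    refine ⟨fun s => γ (min (2 * s) 1) + (max (2 * s - 1) 0) • (m - γ 1), ?_, ?_, ?_, ?_, ?_, ?_⟩
    · apply ContinuousOn.add
      · apply g1.comp (by fun_prop)
        intro s hs
        exact ⟨le_min (by linarith [hs.1]) zero_le_one, min_le_right _ _⟩
      · apply Continuous.continuousOn
        fun_prop
    · intro s hs t ht hst
      have h1 : γ (min (2 * s) 1) ≤ γ (min (2 * t) 1) := by
        apply g2 ⟨le_min (by linarith [hs.1]) zero_le_one, min_le_right _ _⟩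
          ⟨le_min (by linarith [ht.1]) zero_le_one, min_le_right _ _⟩
        gcongr
      have h2 : (max (2 * s - 1) 0) • (m - γ 1) ≤ (max (2 * t - 1) 0) • (m - γ 1) := by
        apply smul_le_smul_of_nonneg_right
        · gcongr
        · exact sub_nonneg.mpr hbm
      exact add_le_add h1 h2
    · intro s hs
      by_cases h : 2 * s ≤ 1
      · have e1 : min (2 * s) 1 = 2 * s := min_eq_left h
        have e2 : max (2 * s - 1) 0 = 0 := max_eq_right (by linarith)
        simp only [e1, e2, zero_smul, add_zero]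
        exact g3 _ ⟨by linarith [hs.1], h⟩
      · have e1 : min (2 * s) 1 = 1 := min_eq_right (by linarith)
        have e2 : max (2 * s - 1) 0 = 2 * s - 1 := max_eq_left (by linarith)
        simp only [e1, e2]
        have : γ 1 + (2 * s - 1) • (m - γ 1) = (2 - 2 * s) • γ 1 + (2 * s - 1) • m := by
          rw [smul_sub]
          have : (2 - 2 * s) • γ 1 = γ 1 - (2 * s - 1) • γ 1 := by
            have e : (2 - 2 * s) = 1 - (2 * s - 1) := by ring
            rw [e, sub_smul, one_smul]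
          rw [this]; abel
        rw [this]
        exact hR hbR hmR (by linarith [hs.2]) (by linarith) (by ring)
    · intro a ha
      by_cases ham : a = m
      · refine ⟨1, ⟨zero_le_one, le_rfl⟩, ?_⟩
        norm_num [ham]
      · obtain ⟨s, hs, hsa⟩ := g4 a (Finset.mem_erase.mpr ⟨ham, ha⟩)
        refine ⟨s / 2, ⟨by linarith [hs.1], by linarith [hs.2]⟩, ?_⟩
        have e0 : 2 * (s / 2) = s := by ring
        have e1 : min (2 * (s / 2)) 1 = s := by rw [e0]; exact min_eq_left hs.2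
        have e2 : max (2 * (s / 2) - 1) 0 = 0 := by
          rw [e0]; exact max_eq_right (by linarith [hs.2])
        simp only [e1, e2, zero_smul, add_zero]
        exact hsa
    · have : (fun s => γ (min (2 * s) 1) + (max (2 * s - 1) 0) • (m - γ 1)) 1 = m := by
        norm_num
      rw [this]; exact hmA
    · intro a ha
      have : (fun s => γ (min (2 * s) 1) + (max (2 * s - 1) 0) • (m - γ 1)) 1 = m := by
        norm_num
      rw [this]; exact hmax a ha

theorem pathChain : PathChainStatement := by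
  intro S l w hl hw hfin
  set Sg : Set ℕ := {n : ℕ | ∃ γ : ℝ → ℝ × ℝ, ContinuousOn γ (Set.Icc 0 1) ∧
    MonotoneOn γ (Set.Icc 0 1) ∧ (∀ s ∈ Set.Icc (0 : ℝ) 1, γ s ∈ rect l w) ∧
    (n : ℕ∞) ≤ (S ∩ γ '' Set.Icc 0 1).encard} with hSg
  have hL : Lmax S l w = sSup Sg := rfl
  -- every member gives a chain
  have key1 : ∀ n ∈ Sg, ∃ A : Finset (ℝ × ℝ), (↑A : Set (ℝ × ℝ)) ⊆ S ∩ rect l w ∧ PChain A ∧
      A.card = n := by
    rintro n ⟨γ, h1, h2, h3, h4⟩
    have hsub : S ∩ γ '' Set.Icc 0 1 ⊆ S ∩ rect l w := by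
      rintro z ⟨hz, s, hs, rfl⟩
      exact ⟨hz, h3 s hs⟩
    have hf : (S ∩ γ '' Set.Icc 0 1).Finite := hfin.subset hsub
    obtain ⟨t, ht1, ht2⟩ := Set.exists_subset_encard_eq h4
    have htf : t.Finite := hf.subset ht1
    refine ⟨htf.toFinset, ?_, ?_, ?_⟩
    · rw [Set.Finite.coe_toFinset]; exact ht1.trans hsub
    · intro a ha b hb
      rw [Set.Finite.mem_toFinset] at ha hb
      obtain ⟨_, s, hs, rfl⟩ := ht1 ha
      obtain ⟨_, s', hs', rfl⟩ := ht1 hb
      rcases le_total s s' with h | h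
      · exact Or.inl (h2 hs hs' h)
      · exact Or.inr (h2 hs' hs h)
    · have := htf.encard_eq_coe_toFinset_card
      rw [this] at ht2
      exact_mod_cast ht2
  -- every chain gives a member
  have key2 : ∀ A : Finset (ℝ × ℝ), (↑A : Set (ℝ × ℝ)) ⊆ S ∩ rect l w → PChain A →
      A.card ∈ Sg := by
    intro A hA hc
    rcases Nat.eq_zero_or_pos A.card with h0 | hpos
    · rw [h0]
      refine ⟨fun _ => (0, 0), continuousOn_const, fun _ _ _ _ _ => le_rfl, fun _ _ => ?_, by simp⟩
      simp only [rect, Set.mem_setOf_eq, add_zero, sub_zero, zero_div]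
      exact ⟨le_rfl, hl.le, le_rfl, hw.le⟩
    · obtain ⟨γ, g1, g2, g3, g4, -, -⟩ := exists_path (rect_convex l w) (A.card - 1) A (by omega) hc
        (fun a ha => (hA ha).2)
      refine ⟨γ, g1, g2, g3, ?_⟩
      rw [← Set.encard_coe_eq_coe_finsetCard]
      apply Set.encard_le_encard
      intro a ha
      exact ⟨(hA ha).1, g4 a ha⟩
  have hbdd : BddAbove Sg := by
    refine ⟨hfin.toFinset.card, ?_⟩
    intro n hn
    obtain ⟨A, hA, -, rfl⟩ := key1 n hn
    apply Finset.card_le_card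
    intro a ha
    rw [Set.Finite.mem_toFinset]
    exact hA ha
  have hne : Sg.Nonempty := ⟨_, key2 ∅ (by simp) (by intro a ha; simp at ha)⟩
  refine ⟨?_, ?_⟩
  · obtain ⟨A, h1, h2, h3⟩ := key1 _ (Nat.sSup_mem hne hbdd)
    exact ⟨A, h1, h2, by rw [hL]; exact h3⟩
  · intro A hA hc
    rw [hL]
    exact le_csSup hbdd (key2 A hA hc)

end Pool.Agent.Helper38_Strip.H44
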