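import Pool.Agent.Helper38_Strip.Statements

/-!
# Module POIS for MP_cd3e9c_pr: convergence of the variance
-/

namespace Pool.Agent.Helper38_Strip.H44

open Finset MeasureTheory Filter Topology

universe u

/-- Abstract comparison: a variable which agrees with `Y N` outside a set of small probability. -/
theorem variance_lim {Ω : Type u} [MeasurableSpace Ω] (P : Measure Ω) [IsProbabilityMeasure P]
    (X M : Ω → ℝ) (Y : ℕ → Ω → ℝ) (B : ℕ → Set Ω) (hM : MemLp M 2 P)
    (hY : ∀ N, Measurable (Y N)) (hB : ∀ N, MeasurableSet (B N))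
    (hP : Tendsto (fun N => P (B N)) atTop (𝓝 0))
    (hXY : ∀ N, 1 ≤ N → ∀ ω, ω ∉ B N → X ω = Y N ω)
    (hXM : ∀ᵐ ω ∂P, |X ω| ≤ M ω) (hYM : ∀ N, 1 ≤ N → ∀ᵐ ω ∂P, |Y N ω| ≤ M ω) :
    MemLp X 2 P ∧
      Tendsto (fun N => (∫ ω, (Y N ω) ^ 2 ∂P) - (∫ ω, Y N ω ∂P) ^ 2) atTop
        (𝓝 (ProbabilityTheory.variance X P)) := by
  have hTM : TendstoInMeasure P Y atTop X := by
    intro ε hε
    refine tendsto_of_tendsto_of_tendsto_of_le_of_le' tendsto_const_nhds hP
      (Eventually.of_forall fun _ => zero_le) ?_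
    filter_upwards [eventually_ge_atTop 1] with N hN
    apply measure_mono
    intro ω hω
    by_contra hc
    have h1 := hXY N hN ω hc
    simp only [Set.mem_ofPred_eq, h1, edist_self] at hω
    exact absurd hω (not_le.2 hε)
  have hXm : AEStronglyMeasurable X P :=
    hTM.aestronglyMeasurable fun N => (hY N).aestronglyMeasurable
  have hX : MemLp X 2 P := by
    refine hM.of_le hXm ?_
    filter_upwards [hXM] with ω h
    rw [Real.norm_eq_abs, Real.norm_eq_abs]
    exact h.trans (le_abs_self _)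
  have hYL : ∀ N, 1 ≤ N → MemLp (Y N) 2 P := by
    intro N hN
    refine hM.of_le (hY N).aestronglyMeasurable ?_
    filter_upwards [hYM N hN] with ω h
    rw [Real.norm_eq_abs, Real.norm_eq_abs]
    exact h.trans (le_abs_self _)
  have key : ∀ (f g : ℕ → Ω → ℝ) (h : Ω → ℝ), Integrable h P →
      (∀ N, 1 ≤ N → Integrable (f N) P) → (∀ N, 1 ≤ N → Integrable (g N) P) →
      (∀ N, 1 ≤ N → ∀ ω, ω ∉ B N → f N ω = g N ω) →
      (∀ N, 1 ≤ N → ∀ᵐ ω ∂P, |f N ω - g N ω| ≤ h ω) →
      Tendsto (fun N => (∫ ω, f N ω ∂P) - ∫ ω, g N ω ∂P) atTop (𝓝 0) := by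
    intro f g h hh hf hg hfg hb
    have h0 : Tendsto (fun N => ∫ ω in B N, h ω ∂P) atTop (𝓝 0) :=
      hh.tendsto_setIntegral_nhds_zero hP
    rw [tendsto_zero_iff_norm_tendsto_zero]
    refine tendsto_of_tendsto_of_tendsto_of_le_of_le' tendsto_const_nhds h0
      (Eventually.of_forall fun _ => norm_nonneg _) ?_
    filter_upwards [eventually_ge_atTop 1] with N hN
    rw [← integral_sub (hf N hN) (hg N hN), ← integral_indicator (hB N)]
    refine norm_integral_le_of_norm_le (hh.indicator (hB N)) ?_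
    filter_upwards [hb N hN] with ω hω
    by_cases hc : ω ∈ B N
    · rw [Set.indicator_of_mem hc, Real.norm_eq_abs]
      exact hω
    · rw [Set.indicator_of_notMem hc, hfg N hN ω hc, sub_self, norm_zero]
  have h1 : Tendsto (fun N => (∫ ω, Y N ω ∂P) - ∫ ω, X ω ∂P) atTop (𝓝 0) := by
    refine key Y (fun _ => X) (fun ω => 2 * M ω) ((hM.integrable one_le_two).const_mul 2)
      (fun N hN => (hYL N hN).integrable one_le_two) (fun _ _ => hX.integrable one_le_two)
      (fun N hN ω hω => (hXY N hN ω hω).symm) ?_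
    intro N hN
    filter_upwards [hXM, hYM N hN] with ω ha hb
    calc |Y N ω - X ω| ≤ |Y N ω| + |X ω| := abs_sub _ _
      _ ≤ 2 * M ω := by linarith
  have h2 : Tendsto (fun N => (∫ ω, (Y N ω) ^ 2 ∂P) - ∫ ω, (X ω) ^ 2 ∂P) atTop (𝓝 0) := by
    refine key (fun N ω => Y N ω ^ 2) (fun _ ω => X ω ^ 2) (fun ω => 2 * M ω ^ 2)
      (hM.integrable_sq.const_mul 2)
      (fun N hN => (hYL N hN).integrable_sq) (fun _ _ => hX.integrable_sq)
      (fun N hN ω hω => by simp only [hXY N hN ω hω]) ?_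
    intro N hN
    filter_upwards [hXM, hYM N hN] with ω ha hb
    have ha' : X ω ^ 2 ≤ M ω ^ 2 := by
      rw [← sq_abs (X ω)]
      exact pow_le_pow_left₀ (abs_nonneg _) ha 2
    have hb' : Y N ω ^ 2 ≤ M ω ^ 2 := by
      rw [← sq_abs (Y N ω)]
      exact pow_le_pow_left₀ (abs_nonneg _) hb 2
    rw [abs_le]
    constructor
    · nlinarith [sq_nonneg (Y N ω), sq_nonneg (X ω)]
    · nlinarith [sq_nonneg (Y N ω), sq_nonneg (X ω)]
  refine ⟨hX, ?_⟩
  have h1' : Tendsto (fun N => ∫ ω, Y N ω ∂P) atTop (𝓝 (∫ ω, X ω ∂P)) := by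
    have := h1.add_const (∫ ω, X ω ∂P)
    simpa using this
  have h2' : Tendsto (fun N => ∫ ω, (Y N ω) ^ 2 ∂P) atTop (𝓝 (∫ ω, (X ω) ^ 2 ∂P)) := by
    have := h2.add_const (∫ ω, (X ω) ^ 2 ∂P)
    simpa using this
  rw [ProbabilityTheory.variance_eq_sub hX]
  exact h2'.sub (h1'.pow 2)

theorem rowP_nonneg {N : ℕ} {p : ℝ} (h0 : 0 ≤ p) (h1 : p ≤ 1) (o : Row N) : 0 ≤ rowP p o := by
  unfold rowP
  refine Finset.prod_nonneg fun m _ => ?_
  split_ifs
  · exact h0
  · linarith

theorem pN_nonneg (w : ℝ) (N : ℕ) : 0 ≤ pN w N := by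
  unfold pN
  have : Real.exp (-(del w N) ^ 2) ≤ 1 := Real.exp_le_one_iff.2 (by nlinarith [sq_nonneg (del w N)])
  linarith

theorem pN_le_one (w : ℝ) (N : ℕ) : pN w N ≤ 1 := by
  unfold pN
  have := Real.exp_pos (-(del w N) ^ 2)
  linarith

/-- expectation of a function of the discrete environment -/
theorem integral_env {Ω : Type u} [MeasurableSpace Ω] (P : Measure Ω) [IsProbabilityMeasure P]
    {T N : ℕ} (p : ℝ) (h0 : 0 ≤ p) (h1 : p ≤ 1) (E : Ω → Env T N)
    (hE : ∀ η : Env T N, MeasurableSet {ω | E ω = η} ∧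
      P {ω | E ω = η} = ENNReal.ofReal (∏ t, rowP p (η t))) (F : Env T N → ℝ) :
    (Measurable fun ω => F (E ω)) ∧ ∫ ω, F (E ω) ∂P = eE p F := by
  classical
  have hsum : ∀ ω, F (E ω) = ∑ η : Env T N, ({ω | E ω = η} : Set Ω).indicator (fun _ => F η) ω := by
    intro ω
    rw [Finset.sum_eq_single (E ω)]
    · rw [Set.indicator_of_mem]
      rfl
    · intro η _ hη
      rw [Set.indicator_of_notMem]
      intro h
      exact hη h.symm
    · intro h
      exact absurd (Finset.mem_univ _) h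
  constructor
  · have : (fun ω => F (E ω)) =
        fun ω => ∑ η : Env T N, ({ω | E ω = η} : Set Ω).indicator (fun _ => F η) ω := by
      funext ω
      exact hsum ω
    rw [this]
    exact Finset.measurable_sum _ fun η _ => measurable_const.indicator (hE η).1
  · simp_rw [hsum]
    rw [integral_finsetSum]
    · unfold eE
      refine Finset.sum_congr rfl fun η _ => ?_
      rw [integral_indicator_const _ (hE η).1, Measure.real, (hE η).2,
        ENNReal.toReal_ofReal (Finset.prod_nonneg fun t _ => rowP_nonneg h0 h1 _), smul_eq_mul]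
    · intro η _
      exact (integrable_const _).indicator (hE η).1

theorem measurableSet_big (l w : ℝ) : MeasurableSet (big l w) := by
  unfold big
  exact (measurableSet_le (measurable_fst.norm) measurable_const).inter
    (measurableSet_le (measurable_snd.norm) measurable_const)

theorem volume_big_lt_top (l w : ℝ) : volume (big l w) < ⊤ := by
  have hsub : big l w ⊆ Metric.closedBall (0 : ℝ × ℝ) (6 * (l + w)) := by
    intro z hz
    rw [mem_closedBall_zero_iff, Prod.norm_def]
    exact max_le hz.1 hz.2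
  exact lt_of_le_of_lt (measure_mono hsub) measure_closedBall_lt_top

/-- POIS -/
theorem pois (hLaw : LawBoxStatement.{u}) (hBad : BadPStatement.{u})
    (hCnt : CountMomStatement.{u}) (hDom : DomStatement) (hBox : BoxGoodStatement) :
    PoisStatement.{u} := by
  intro Ω mΩ P hP S hS l w hl hw
  obtain ⟨B, hBm, hB0, hBg⟩ := hBad Ω mΩ P hP S hS l w hl hw
  obtain ⟨hfin, hM⟩ := hCnt Ω mΩ P hP S hS (big l w) (measurableSet_big l w)
    (volume_big_lt_top l w)
  have hE : ∀ N, 1 ≤ N → ∀ F : Env (TN l w N) N → ℝ,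
      (Measurable fun ω => F (envS (del w N) (TN l w N) N (S ω))) ∧
        ∫ ω, F (envS (del w N) (TN l w N) N (S ω)) ∂P = eE (pN w N) F := fun N hN F =>
    integral_env P (pN w N) (pN_nonneg w N) (pN_le_one w N)
      (fun ω => envS (del w N) (TN l w N) N (S ω))
      (fun η => hLaw Ω mΩ P hP S hS w (TN l w N) N hw hN η) F
  have hdel : ∀ N, 1 ≤ N → 0 < del w N := by
    intro N hN
    unfold del
    have : (0 : ℝ) < N := by exact_mod_cast hN
    positivity
  have main := variance_lim P (fun ω => (Lmax (S ω) l w : ℝ))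
    (fun ω => ((S ω ∩ big l w).ncard : ℝ))
    (fun N ω => if 1 ≤ N then (Lf (envS (del w N) (TN l w N) N (S ω)) : ℝ) else 0) B hM
    (by
      intro N
      by_cases hN : 1 ≤ N
      · simp only [hN, if_true]
        exact (hE N hN (fun η => (Lf η : ℝ))).1
      · simp only [hN, if_false]
        exact measurable_const)
    hBm hB0
    (by
      intro N hN ω hω
      simp only [hN, if_true]
      have := hBox (S ω) l w (del w N) (TN l w N) N hl hw (hdel N hN) hN (hBg N hN ω hω)
      exact_mod_cast this)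
    (by
      filter_upwards [hfin] with ω hω
      have := (hDom (S ω) l w 1 hl hw le_rfl hω).1
      rw [abs_of_nonneg (Nat.cast_nonneg _)]
      exact_mod_cast this)
    (by
      intro N hN
      filter_upwards [hfin] with ω hω
      obtain ⟨-, h1, h2⟩ := hDom (S ω) l w N hl hw hN hω
      simp only [hN, if_true]
      rw [abs_of_nonneg (by exact_mod_cast h1)]
      exact_mod_cast h2)
  refine ⟨main.1, main.2.congr' ?_⟩
  filter_upwards [eventually_ge_atTop 1] with N hN
  simp only [hN, if_true]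
  unfold VarD
  rw [← (hE N hN (fun η => (Lf η : ℝ))).2, ← (hE N hN (fun η => (Lf η : ℝ) ^ 2)).2]

end Pool.Agent.Helper38_Strip.H44
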